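import Pool.Agent.Work.MP_c20ce7_st28.Lin

set_option autoImplicit false
set_option linter.unusedSectionVars false

/-!
# Linear vector fields acting on a module over the Weyl algebra
-/

open MvPolynomial

noncomputable section

namespace Pool.DM

variable {σ κ : Type} [Fintype σ] [DecidableEq σ] [Fintype κ] [DecidableEq κ]
  {L : Type} [AddCommGroup L] [Module ℂ L]

/-- The linear vector field `x ↦ A x`, acting on the module: `∑ A k l x_l ∂_k`. -/
def WMod.fld (W : WMod σ L) (A : Matrix σ σ ℂ) : Module.End ℂ L :=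
  ∑ k, ∑ l, A k l • (W.x (X l) * W.d (X k))

theorem WMod.fld_add (W : WMod σ L) (A B : Matrix σ σ ℂ) :
    W.fld (A + B) = W.fld A + W.fld B := by
  simp only [WMod.fld, Matrix.add_apply, add_smul, Finset.sum_add_distrib]

theorem WMod.fld_smul (W : WMod σ L) (c : ℂ) (A : Matrix σ σ ℂ) :
    W.fld (c • A) = c • W.fld A := by
  simp only [WMod.fld, Matrix.smul_apply, smul_assoc, Finset.smul_sum]

theorem WMod.fld_zero (W : WMod σ L) : W.fld 0 = 0 := by
  simp only [WMod.fld, Matrix.zero_apply, zero_smul, Finset.sum_const_zero]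

theorem WMod.fld_neg (W : WMod σ L) (A : Matrix σ σ ℂ) : W.fld (-A) = -W.fld A := by
  simp only [WMod.fld, Matrix.neg_apply, neg_smul, Finset.sum_neg_distrib]

theorem WMod.fld_sub (W : WMod σ L) (A B : Matrix σ σ ℂ) :
    W.fld (A - B) = W.fld A - W.fld B := by
  rw [sub_eq_add_neg, W.fld_add, W.fld_neg, sub_eq_add_neg]

theorem WMod.fld_single (W : WMod σ L) (k l : σ) (c : ℂ) :
    W.fld (Matrix.single k l c) = c • (W.x (X l) * W.d (X k)) := by
  unfold WMod.fld
  rw [Finset.sum_eq_single k, Finset.sum_eq_single l]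
  · simp
  · intro j _ hj
    simp [Ne.symm hj]
  · intro hl
    exact absurd (Finset.mem_univ l) hl
  · intro i _ hi
    refine Finset.sum_eq_zero fun j _ => ?_
    simp [Ne.symm hi]
  · intro hk
    exact absurd (Finset.mem_univ k) hk

theorem WMod.comm_unit (W : WMod σ L) (k l p q : σ) :
    (W.x (X l) * W.d (X k)) * (W.x (X q) * W.d (X p)) -
      (W.x (X q) * W.d (X p)) * (W.x (X l) * W.d (X k)) =
    (if k = q then W.x (X l) * W.d (X p) else 0) - (if p = l then W.x (X q) * W.d (X k) else 0) := by
  have h1 := W.comm k q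
  have h2 := W.comm p l
  have hx : W.x (X l) * W.x (X q) = W.x (X q) * W.x (X l) := by
    rw [← map_mul, ← map_mul, mul_comm]
  have hd : W.d (X k) * W.d (X p) = W.d (X p) * W.d (X k) := by
    rw [← map_mul, ← map_mul, mul_comm]
  have h3 : (W.x (X l) * W.d (X k)) * (W.x (X q) * W.d (X p)) -
      (W.x (X q) * W.d (X p)) * (W.x (X l) * W.d (X k)) =
      W.x (X l) * (W.d (X k) * W.x (X q) - W.x (X q) * W.d (X k)) * W.d (X p) -
      W.x (X q) * (W.d (X p) * W.x (X l) - W.x (X l) * W.d (X p)) * W.d (X k) := by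
    simp only [mul_sub, sub_mul, mul_assoc]
    rw [hd]
    simp only [← mul_assoc]
    rw [hx]
    abel
  rw [h3, h1, h2]
  split_ifs <;> simp

/-- The commutator of two linear vector fields. -/
theorem WMod.fld_comm (W : WMod σ L) (A B : Matrix σ σ ℂ) :
    W.fld A * W.fld B - W.fld B * W.fld A = W.fld (B * A - A * B) := by
  induction A using Matrix.induction_on' with
  | h_zero => simp [W.fld_zero]
  | h_add A A' h h' =>
    rw [W.fld_add, add_mul, mul_add, mul_add, add_mul, add_sub_add_comm, h, h', ← W.fld_add]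
    congr 1
    abel
  | h_std_basis k l c =>
    induction B using Matrix.induction_on' with
    | h_zero => simp [W.fld_zero]
    | h_add B B' h h' =>
      rw [W.fld_add, add_mul, mul_add, mul_add, add_mul, add_sub_add_comm, h, h', ← W.fld_add]
      congr 1
      abel
    | h_std_basis p q c' =>
      rw [W.fld_single, W.fld_single, smul_mul_smul_comm, smul_mul_smul_comm, mul_comm c' c,
        ← smul_sub, W.comm_unit, W.fld_sub]
      have e1 : W.fld (Matrix.single p q c' * Matrix.single k l c) =
          (c * c') • (if k = q then W.x (X l) * W.d (X p) else 0) := by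
        by_cases h : k = q
        · subst h
          rw [Matrix.single_mul_single_same, W.fld_single, if_pos rfl, mul_comm c' c]
        · rw [Matrix.single_mul_single_of_ne (h := Ne.symm h), W.fld_zero, if_neg h, smul_zero]
      have e2 : W.fld (Matrix.single k l c * Matrix.single p q c') =
          (c * c') • (if p = l then W.x (X q) * W.d (X k) else 0) := by
        by_cases h : p = l
        · subst h
          rw [Matrix.single_mul_single_same, W.fld_single, if_pos rfl]
        · rw [Matrix.single_mul_single_of_ne (h := Ne.symm h), W.fld_zero, if_neg h, smul_zero]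
      rw [e1, e2, smul_sub]

/-- Linear vector fields under a linear change of coordinates. -/
theorem WMod.fld_lin (W : WMod σ L) (M : Matrix κ σ ℂ) (M' : Matrix σ κ ℂ) (h : M * M' = 1)
    (B : Matrix κ κ ℂ) : (W.lin M M' h).fld B = W.fld (M' * B * M) := by
  induction B using Matrix.induction_on' with
  | h_zero => simp [WMod.fld_zero]
  | h_add B B' h1 h2 => rw [WMod.fld_add, h1, h2, Matrix.mul_add, Matrix.add_mul, WMod.fld_add]
  | h_std_basis k l c =>
    rw [WMod.fld_single, W.lin_xX, W.lin_dX, Finset.sum_mul_sum, WMod.fld, Finset.sum_comm,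
      Finset.smul_sum]
    have e1 : ∀ a b, (M' * Matrix.single k l c * M) a b = c * (M l b * M' a k) := by
      intro a b
      rw [Matrix.mul_assoc, Matrix.mul_apply, Finset.sum_eq_single k]
      · rw [Matrix.single_mul_apply_same]
        ring
      · intro i _ hi
        rw [Matrix.single_mul_apply_of_ne _ _ _ _ _ hi, mul_zero]
      · intro hk
        exact absurd (Finset.mem_univ k) hk
    refine Finset.sum_congr rfl fun a _ => ?_
    rw [Finset.smul_sum]
    refine Finset.sum_congr rfl fun b _ => ?_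
    rw [e1, smul_mul_smul_comm, smul_smul]

/-! ## The coordinates of `V_λ` -/

section Graded

variable {ι : Type} [Fintype ι] [DecidableEq ι] {R : Type} [Add R] [One R] {e : ι → R}

/-- The matrix of `x ↦ a x - x a` in the coordinates of `V_λ`. -/
def adm (e : ι → R) (a : Matrix ι ι ℂ) : Matrix (Co e) (Co e) ℂ := fun c c' =>
  (if c'.1.2 = c.1.2 then a c.1.1 c'.1.1 else 0) - (if c'.1.1 = c.1.1 then a c'.1.2 c.1.2 else 0)

theorem sum_co {A : Type} [AddCommMonoid A] (f : ι → ι → A)
    (hf : ∀ i j, ¬ e i = e j + 1 → f i j = 0) :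
    ∑ c : Co e, f c.1.1 c.1.2 = ∑ i, ∑ j, f i j := by
  classical
  rw [← Finset.sum_product', Finset.univ_product_univ]
  have h1 : ∑ p : ι × ι, f p.1 p.2 =
      ∑ p ∈ Finset.univ.filter (fun p : ι × ι => e p.1 = e p.2 + 1), f p.1 p.2 := by
    symm
    refine Finset.sum_subset (Finset.filter_subset _ _) fun p _ hp => ?_
    refine hf _ _ fun h => hp ?_
    rw [Finset.mem_filter]
    exact ⟨Finset.mem_univ _, h⟩
  rw [h1]
  symm
  refine Finset.sum_subtype _ (fun p => ?_) _
  rw [Finset.mem_filter]
  exact and_iff_right (Finset.mem_univ _)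

theorem WMod.xo_co (W : WMod (Co e) L) (c : Co e) : W.xo c.1.1 c.1.2 = W.x (X c) := by
  unfold WMod.xo
  rw [dif_pos c.2]

theorem WMod.dO_co (W : WMod (Co e) L) (c : Co e) : W.dO c.1.1 c.1.2 = W.d (X c) := by
  unfold WMod.dO
  rw [dif_pos c.2]

theorem WMod.xo_zero (W : WMod (Co e) L) {a b : ι} (h : ¬ e a = e b + 1) : W.xo a b = 0 := by
  unfold WMod.xo
  rw [dif_neg h]

theorem WMod.dO_zero (W : WMod (Co e) L) {a b : ι} (h : ¬ e a = e b + 1) : W.dO a b = 0 := by
  unfold WMod.dO
  rw [dif_neg h]

/-- The vector field of `a` is the combination of the vector fields of the matrix units. -/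
theorem WMod.fld_adm (W : WMod (Co e) L) (a : Matrix ι ι ℂ) :
    W.fld (adm e a) = ∑ i, ∑ j, a i j • W.G i j := by
  unfold WMod.fld
  have h1 : ∀ c : Co e, ∑ c' : Co e, adm e a c c' • (W.x (X c') * W.d (X c)) =
      ∑ p, ∑ q, ((if q = c.1.2 then a c.1.1 p else 0) - (if p = c.1.1 then a q c.1.2 else 0)) •
        (W.xo p q * W.dO c.1.1 c.1.2) := by
    intro c
    rw [← sum_co (e := e) (fun p q => ((if q = c.1.2 then a c.1.1 p else 0) -
      (if p = c.1.1 then a q c.1.2 else 0)) • (W.xo p q * W.dO c.1.1 c.1.2))]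
    · refine Finset.sum_congr rfl fun c' _ => ?_
      rw [W.xo_co, W.dO_co]
      rfl
    · intro p q h
      rw [W.xo_zero h, zero_mul, smul_zero]
  rw [Finset.sum_congr rfl fun c _ => h1 c]
  rw [sum_co (e := e) (fun i j => ∑ p, ∑ q, ((if q = j then a i p else 0) -
    (if p = i then a q j else 0)) • (W.xo p q * W.dO i j))]
  · have h2 : ∀ i j, ∑ p, ∑ q, ((if q = j then a i p else 0) - (if p = i then a q j else 0)) •
        (W.xo p q * W.dO i j) =
        ∑ p, a i p • (W.xo p j * W.dO i j) - ∑ q, a q j • (W.xo i q * W.dO i j) := by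
      intro i j
      simp only [sub_smul, ite_smul, zero_smul, Finset.sum_sub_distrib, Finset.sum_ite_eq',
        Finset.mem_univ, if_true]
      congr 1
      rw [Finset.sum_comm]
      simp only [Finset.sum_ite_eq', Finset.mem_univ, if_true]
    simp only [h2, Finset.sum_sub_distrib, WMod.G, smul_sub, Finset.smul_sum]
    congr 1
    · refine Finset.sum_congr rfl fun i _ => ?_
      rw [Finset.sum_comm]
    · rw [Finset.sum_comm]
      rw [Finset.sum_comm (f := fun i j => ∑ c, a i j • (W.xo c i * W.dO c j))]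
      refine Finset.sum_congr rfl fun j _ => ?_
      rw [Finset.sum_comm]
  · intro i j h
    refine Finset.sum_eq_zero fun p _ => Finset.sum_eq_zero fun q _ => ?_
    rw [W.dO_zero h, mul_zero, smul_zero]

theorem WMod.fld_adm_single (W : WMod (Co e) L) (i j : ι) (c : ℂ) :
    W.fld (adm e (Matrix.single i j c)) = c • W.G i j := by
  rw [W.fld_adm, Finset.sum_eq_single i, Finset.sum_eq_single j]
  · simp
  · intro b _ hb
    simp [Ne.symm hb]
  · intro hl
    exact absurd (Finset.mem_univ j) hl
  · intro b _ hb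
    refine Finset.sum_eq_zero fun j' _ => ?_
    simp [Ne.symm hb]
  · intro hk
    exact absurd (Finset.mem_univ i) hk

/-- `a` commutes with `λ(w) = diag(|w| ^ e)`. -/
def Deg0 (e : ι → R) (a : Matrix ι ι ℂ) : Prop := ∀ i j, a i j ≠ 0 → e i = e j

theorem fmat_co (x : Co e → ℂ) (c : Co e) : mat e x c.1.1 c.1.2 = x c := by
  unfold mat
  rw [dif_pos c.2]

theorem fmat_zero (x : Co e → ℂ) {a b : ι} (h : ¬ e a = e b + 1) : mat e x a b = 0 := by
  unfold mat
  rw [dif_neg h]

theorem adm_mulVec (a : Matrix ι ι ℂ) (x : Co e → ℂ) (c : Co e) :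
    (adm e a).mulVec x c = (a * mat e x - mat e x * a) c.1.1 c.1.2 := by
  have h1 : (adm e a).mulVec x c =
      ∑ p, ∑ q, ((if q = c.1.2 then a c.1.1 p else 0) - (if p = c.1.1 then a q c.1.2 else 0)) *
        mat e x p q := by
    rw [← sum_co (e := e) (fun p q => ((if q = c.1.2 then a c.1.1 p else 0) -
      (if p = c.1.1 then a q c.1.2 else 0)) * mat e x p q)]
    · unfold Matrix.mulVec dotProduct
      refine Finset.sum_congr rfl fun c' _ => ?_
      rw [fmat_co]
      rfl
    · intro p q h
      rw [fmat_zero x h, mul_zero]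
  rw [h1, Matrix.sub_apply, Matrix.mul_apply, Matrix.mul_apply]
  simp only [sub_mul, ite_mul, zero_mul, Finset.sum_sub_distrib, Finset.sum_ite_eq',
    Finset.mem_univ, if_true]
  congr 1
  rw [Finset.sum_comm]
  simp only [Finset.sum_ite_eq', Finset.mem_univ, if_true]
  exact Finset.sum_congr rfl fun q _ => mul_comm _ _

theorem mat_adm {a : Matrix ι ι ℂ} (ha : Deg0 e a) (x : Co e → ℂ) :
    mat e ((adm e a).mulVec x) = a * mat e x - mat e x * a := by
  ext i j
  by_cases h : e i = e j + 1
  · have h1 := fmat_co ((adm e a).mulVec x) ⟨(i, j), h⟩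
    simp only at h1
    rw [h1, adm_mulVec]
  · rw [fmat_zero _ h, Matrix.sub_apply, Matrix.mul_apply, Matrix.mul_apply]
    rw [Finset.sum_eq_zero, Finset.sum_eq_zero, sub_zero]
    · intro k _
      by_cases hk : a k j = 0
      · rw [hk, mul_zero]
      · have h2 := ha k j hk
        rw [fmat_zero x (fun h3 => h (by rw [h3, h2])), zero_mul]
    · intro k _
      by_cases hk : a i k = 0
      · rw [hk, zero_mul]
      · have h2 := ha i k hk
        rw [fmat_zero x (fun h3 => h (by rw [h2, h3])), mul_zero]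

theorem adm_mul {a b : Matrix ι ι ℂ} (ha : Deg0 e a) (hb : Deg0 e b) :
    adm e a * adm e b - adm e b * adm e a = adm e (a * b - b * a) := by
  have key : ∀ x : Co e → ℂ, (adm e a * adm e b - adm e b * adm e a).mulVec x =
      (adm e (a * b - b * a)).mulVec x := by
    intro x
    ext c
    rw [Matrix.sub_mulVec, ← Matrix.mulVec_mulVec, ← Matrix.mulVec_mulVec, Pi.sub_apply,
      adm_mulVec, adm_mulVec, adm_mulVec, mat_adm ha, mat_adm hb, ← Matrix.sub_apply]
    have e1 : ∀ X : Matrix ι ι ℂ, a * (b * X - X * b) - (b * X - X * b) * a -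
        (b * (a * X - X * a) - (a * X - X * a) * b) = (a * b - b * a) * X - X * (a * b - b * a) := by
      intro X
      simp only [mul_sub, sub_mul, mul_assoc]
      abel
    rw [e1]
  ext c c'
  have h := congrFun (key (Pi.single c' 1)) c
  rwa [Matrix.mulVec_single_one, Matrix.mulVec_single_one] at h

theorem adm_add (a b : Matrix ι ι ℂ) : adm e (a + b) = adm e a + adm e b := by
  ext c c'
  simp only [adm, Matrix.add_apply]
  split_ifs <;> ring

theorem adm_smul (t : ℂ) (a : Matrix ι ι ℂ) : adm e (t • a) = t • adm e a := by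
  ext c c'
  simp only [adm, Matrix.smul_apply, smul_eq_mul]
  split_ifs <;> ring

/-- The vector field of `a`. -/
def WMod.GG (W : WMod (Co e) L) (a : Matrix ι ι ℂ) : Module.End ℂ L := W.fld (adm e a)

theorem WMod.GG_add (W : WMod (Co e) L) (a b : Matrix ι ι ℂ) :
    W.GG (a + b) = W.GG a + W.GG b := by
  unfold WMod.GG
  rw [adm_add, W.fld_add]

theorem WMod.GG_smul (W : WMod (Co e) L) (t : ℂ) (a : Matrix ι ι ℂ) :
    W.GG (t • a) = t • W.GG a := by
  unfold WMod.GG
  rw [adm_smul, W.fld_smul]

theorem WMod.GG_neg (W : WMod (Co e) L) (a : Matrix ι ι ℂ) : W.GG (-a) = -W.GG a := by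
  have h := W.GG_smul (-1) a
  rwa [neg_one_smul, neg_one_smul] at h

theorem WMod.GG_zero (W : WMod (Co e) L) : W.GG 0 = 0 := by
  have h := W.GG_smul 0 0
  rwa [zero_smul, zero_smul] at h

theorem WMod.GG_sub (W : WMod (Co e) L) (a b : Matrix ι ι ℂ) :
    W.GG (a - b) = W.GG a - W.GG b := by
  rw [sub_eq_add_neg, W.GG_add, W.GG_neg, sub_eq_add_neg]

theorem WMod.GG_single (W : WMod (Co e) L) (i j : ι) (c : ℂ) :
    W.GG (Matrix.single i j c) = c • W.G i j := W.fld_adm_single i j c

/-- The commutator of the vector fields of `a` and `b`. -/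
theorem WMod.GG_comm (W : WMod (Co e) L) {a b : Matrix ι ι ℂ} (ha : Deg0 e a) (hb : Deg0 e b) :
    W.GG a * W.GG b - W.GG b * W.GG a = W.GG (b * a - a * b) := by
  unfold WMod.GG
  rw [W.fld_comm, adm_mul hb ha]

end Graded

end Pool.DM
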