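import Pool.Agent.Work.MP_c20ce7_dm.Defs

set_option autoImplicit false
set_option linter.unusedSectionVars false

/-!
# Linear change of coordinates of a module over the Weyl algebra
-/

open MvPolynomial

noncomputable section

namespace Pool.DM

variable {σ κ : Type} [Fintype σ] [DecidableEq σ] [Fintype κ] [DecidableEq κ]
  {L : Type} [AddCommGroup L] [Module ℂ L]

/-- The substitution `X k ↦ ∑ l, M k l X l`. -/
def lsub (M : Matrix κ σ ℂ) : MvPolynomial κ ℂ →ₐ[ℂ] MvPolynomial σ ℂ :=
  aeval fun k => ∑ l, C (M k l) * X l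

omit [DecidableEq σ] [Fintype κ] [DecidableEq κ] in
theorem lsub_X (M : Matrix κ σ ℂ) (k : κ) : lsub M (X k) = ∑ l, C (M k l) * X l := aeval_X _ _

omit [DecidableEq σ] [Fintype κ] [DecidableEq κ] in
theorem eval_lsub (M : Matrix κ σ ℂ) (g : MvPolynomial κ ℂ) (v : σ → ℂ) :
    eval v (lsub M g) = eval (M.mulVec v) g := by
  induction g using MvPolynomial.induction_on with
  | C a => rw [← MvPolynomial.algebraMap_eq, AlgHom.commutes, MvPolynomial.algebraMap_eq, eval_C,
      MvPolynomial.algebraMap_eq, eval_C]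
  | add p q hp hq => simp only [map_add, hp, hq]
  | mul_X p j hp =>
    rw [map_mul, map_mul, map_mul, hp, lsub_X, eval_X, map_sum]
    simp [Matrix.mulVec, dotProduct]

/-- The substitution in both sets of variables. -/
def lsub2 (M : Matrix κ σ ℂ) (M' : Matrix σ κ ℂ) :
    MvPolynomial (κ ⊕ κ) ℂ →ₐ[ℂ] MvPolynomial (σ ⊕ σ) ℂ :=
  aeval (Sum.elim (fun k => rename Sum.inl (lsub M (X k)))
    (fun k => rename Sum.inr (lsub M'.transpose (X k))))

omit [DecidableEq σ] [DecidableEq κ] in
theorem lsub2_inl (M : Matrix κ σ ℂ) (M' : Matrix σ κ ℂ) (f : MvPolynomial κ ℂ) :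
    lsub2 M M' (rename Sum.inl f) = rename Sum.inl (lsub M f) := by
  induction f using MvPolynomial.induction_on with
  | C a => simp [← MvPolynomial.algebraMap_eq]
  | add p q hp hq => simp only [map_add, hp, hq]
  | mul_X p j hp =>
    rw [map_mul, map_mul, map_mul, map_mul, hp, rename_X, lsub2, aeval_X, Sum.elim_inl]

omit [DecidableEq σ] [DecidableEq κ] in
theorem lsub2_inr (M : Matrix κ σ ℂ) (M' : Matrix σ κ ℂ) (f : MvPolynomial κ ℂ) :
    lsub2 M M' (rename Sum.inr f) = rename Sum.inr (lsub M'.transpose f) := by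
  induction f using MvPolynomial.induction_on with
  | C a => simp [← MvPolynomial.algebraMap_eq]
  | add p q hp hq => simp only [map_add, hp, hq]
  | mul_X p j hp =>
    rw [map_mul, map_mul, map_mul, map_mul, hp, rename_X, lsub2, aeval_X, Sum.elim_inr]

omit [DecidableEq σ] [DecidableEq κ] in
theorem eval_lsub2 (M : Matrix κ σ ℂ) (M' : Matrix σ κ ℂ) (P : MvPolynomial (κ ⊕ κ) ℂ)
    (v w : σ → ℂ) : eval (Sum.elim v w) (lsub2 M M' P) =
      eval (Sum.elim (M.mulVec v) (M'.transpose.mulVec w)) P := by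
  classical
  induction P using sum_ind with
  | h0 f g =>
    rw [map_mul, map_mul, map_mul, lsub2_inl, lsub2_inr, eval_rename, eval_rename, eval_rename,
      eval_rename, Sum.elim_comp_inl, Sum.elim_comp_inr, Sum.elim_comp_inl, Sum.elim_comp_inr,
      eval_lsub, eval_lsub]
  | hadd p q hp hq => simp only [map_add, hp, hq]

omit [DecidableEq σ] [DecidableEq κ] in
theorem lsub2_hom (M : Matrix κ σ ℂ) (M' : Matrix σ κ ℂ) {P : MvPolynomial (κ ⊕ κ) ℂ} {m : ℕ}
    (hP : IsWeightedHomogeneous (wt κ) P m) : IsWeightedHomogeneous (wt σ) (lsub2 M M' P) m := by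
  have hX : ∀ s : κ ⊕ κ, IsWeightedHomogeneous (wt σ) (lsub2 M M' (X s)) (wt κ s) := by
    intro s
    rcases s with k | k
    · rw [lsub2, aeval_X, Sum.elim_inl, lsub_X, map_sum]
      refine IsWeightedHomogeneous.sum _ _ _ fun l _ => ?_
      rw [map_mul, rename_C, rename_X]
      exact IsWeightedHomogeneous.C_mul (isWeightedHomogeneous_X ℂ (wt σ) (Sum.inl l)) _
    · rw [lsub2, aeval_X, Sum.elim_inr, lsub_X, map_sum]
      refine IsWeightedHomogeneous.sum _ _ _ fun l _ => ?_
      rw [map_mul, rename_C, rename_X]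
      exact IsWeightedHomogeneous.C_mul (isWeightedHomogeneous_X ℂ (wt σ) (Sum.inr l)) _
  rw [P.as_sum, map_sum]
  refine IsWeightedHomogeneous.sum _ _ _ fun s hs => ?_
  have hw : Finsupp.weight (wt κ) s = m := hP (mem_support_iff.1 hs)
  rw [monomial_eq, map_mul, Finsupp.prod, map_prod]
  have h1 : lsub2 M M' (C (coeff s P)) = C (coeff s P) := by
    rw [← MvPolynomial.algebraMap_eq, AlgHom.commutes, MvPolynomial.algebraMap_eq]
  rw [h1]
  refine IsWeightedHomogeneous.C_mul ?_ _
  have h2 := IsWeightedHomogeneous.prod (w := wt σ) s.support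
    (fun i => lsub2 M M' (X i ^ s i)) (fun i => s i • wt κ i) (fun i _ => by
      rw [map_pow]
      exact (hX i).pow (s i))
  rw [← hw, Finsupp.weight_apply, Finsupp.sum]
  exact h2

omit [DecidableEq σ] [DecidableEq κ] in
theorem lsub2_comp (M : Matrix κ σ ℂ) (M' : Matrix σ κ ℂ) (P : MvPolynomial (κ ⊕ κ) ℂ) (m : ℕ) :
    weightedHomogeneousComponent (wt σ) m (lsub2 M M' P) =
      lsub2 M M' (weightedHomogeneousComponent (wt κ) m P) := by
  induction P using MvPolynomial.induction_on' with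
  | add p q hp hq => simp only [map_add, hp, hq]
  | monomial s c =>
    have h1 : IsWeightedHomogeneous (wt κ) (monomial s c : MvPolynomial (κ ⊕ κ) ℂ)
        (Finsupp.weight (wt κ) s) := isWeightedHomogeneous_monomial _ _ _ rfl
    by_cases h : Finsupp.weight (wt κ) s = m
    · subst h
      rw [h1.weightedHomogeneousComponent_same,
        (lsub2_hom M M' h1).weightedHomogeneousComponent_same]
    · rw [h1.weightedHomogeneousComponent_ne m (Ne.symm h),
        (lsub2_hom M M' h1).weightedHomogeneousComponent_ne m (Ne.symm h), map_zero]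

omit [DecidableEq σ] [DecidableEq κ] in
theorem lsub2_deg (M : Matrix κ σ ℂ) (M' : Matrix σ κ ℂ) {P : MvPolynomial (κ ⊕ κ) ℂ} {m : ℕ}
    (hP : weightedTotalDegree (wt κ) P ≤ m) : weightedTotalDegree (wt σ) (lsub2 M M' P) ≤ m := by
  refine Finset.sup_le fun s hs => ?_
  by_contra hlt
  push Not at hlt
  have h1 := lsub2_comp M M' P (Finsupp.weight (wt σ) s)
  have h0 : weightedHomogeneousComponent (wt κ) (Finsupp.weight (wt σ) s) P = 0 :=
    weightedHomogeneousComponent_eq_zero _ _ (lt_of_le_of_lt hP hlt)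
  rw [h0, map_zero] at h1
  have h2 := congrArg (coeff s) h1
  rw [coeff_weightedHomogeneousComponent, if_pos rfl, coeff_zero] at h2
  exact (mem_support_iff.1 hs) h2

theorem WMod.x_sum (W : WMod σ L) (a : σ → ℂ) :
    W.x (∑ l, C (a l) * X l) = ∑ l, a l • W.x (X l) := by
  rw [map_sum]
  refine Finset.sum_congr rfl fun l _ => ?_
  rw [map_mul, W.x_C, smul_mul_assoc, one_mul]

theorem WMod.d_sum (W : WMod σ L) (a : σ → ℂ) :
    W.d (∑ l, C (a l) * X l) = ∑ l, a l • W.d (X l) := by
  rw [map_sum]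
  refine Finset.sum_congr rfl fun l _ => ?_
  rw [map_mul, W.d_C, smul_mul_assoc, one_mul]

/-- The module in the coordinates `y k = ∑ l, M k l x l`; the inverse matrix is `M'`. -/
def WMod.lin (W : WMod σ L) (M : Matrix κ σ ℂ) (M' : Matrix σ κ ℂ) (h : M * M' = 1) :
    WMod κ L where
  x := W.x.comp (lsub M)
  d := W.d.comp (lsub M'.transpose)
  comm := by
    intro i j
    simp only [AlgHom.comp_apply, lsub_X, W.x_sum, W.d_sum, Matrix.transpose_apply]
    have h1 : (∑ l, M' l i • W.d (X l)) * (∑ l, M j l • W.x (X l)) -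
        (∑ l, M j l • W.x (X l)) * (∑ l, M' l i • W.d (X l)) =
        ∑ k, ∑ l, (M' k i * M j l) • (W.d (X k) * W.x (X l) - W.x (X l) * W.d (X k)) := by
      have e1 : (∑ l, M j l • W.x (X l)) * (∑ l, M' l i • W.d (X l)) =
          ∑ k, ∑ l, (M' k i * M j l) • (W.x (X l) * W.d (X k)) := by
        rw [Finset.sum_mul_sum, Finset.sum_comm]
        refine Finset.sum_congr rfl fun k _ => Finset.sum_congr rfl fun l _ => ?_
        rw [smul_mul_smul_comm, mul_comm (M j l)]
      rw [e1, Finset.sum_mul_sum, ← Finset.sum_sub_distrib]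
      refine Finset.sum_congr rfl fun k _ => ?_
      rw [← Finset.sum_sub_distrib]
      refine Finset.sum_congr rfl fun l _ => ?_
      rw [smul_mul_smul_comm, smul_sub]
    rw [h1]
    have h2 : ∀ k l, (M' k i * M j l) • (W.d (X k) * W.x (X l) - W.x (X l) * W.d (X k)) =
        if k = l then (M' k i * M j l) • (1 : Module.End ℂ L) else 0 := by
      intro k l
      rw [W.comm]
      split_ifs <;> simp
    simp only [h2]
    simp only [Finset.sum_ite_eq, Finset.mem_univ, if_true]
    rw [← Finset.sum_smul]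
    have h3 : ∑ k, M' k i * M j k = (M * M') j i := by
      rw [Matrix.mul_apply]
      exact Finset.sum_congr rfl fun k _ => mul_comm _ _
    rw [h3, h, Matrix.one_apply]
    by_cases hij : i = j
    · subst hij
      simp
    · rw [if_neg hij, if_neg (Ne.symm hij), zero_smul]

variable (W : WMod σ L) (M : Matrix κ σ ℂ) (M' : Matrix σ κ ℂ) (h : M * M' = 1)

theorem WMod.lin_x (g : MvPolynomial κ ℂ) : (W.lin M M' h).x g = W.x (lsub M g) := rfl

theorem WMod.lin_d (g : MvPolynomial κ ℂ) : (W.lin M M' h).d g = W.d (lsub M'.transpose g) := rfl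

theorem WMod.lin_xX (k : κ) : (W.lin M M' h).x (X k) = ∑ l, M k l • W.x (X l) := by
  rw [W.lin_x, lsub_X, W.x_sum]

theorem WMod.lin_dX (k : κ) : (W.lin M M' h).d (X k) = ∑ l, M' l k • W.d (X l) := by
  rw [W.lin_d, lsub_X, W.d_sum]
  rfl

theorem WMod.lin_nf (P : MvPolynomial (κ ⊕ κ) ℂ) :
    (W.lin M M' h).nf P = W.nf (lsub2 M M' P) := by
  induction P using sum_ind with
  | h0 f g =>
    rw [WMod.nf_mul, map_mul, lsub2_inl, lsub2_inr, W.nf_mul]
    rfl
  | hadd p q hp hq => simp only [map_add, hp, hq]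

/-- The characteristic variety in the new coordinates. -/
theorem WMod.InCh.lin {x ξ : σ → ℂ} (hc : W.InCh x ξ) :
    (W.lin M M' h).InCh (M.mulVec x) (M'.transpose.mulVec ξ) := by
  intro u hu m P hP hPu
  rw [W.lin_nf] at hPu
  have h1 := hc u hu m (lsub2 M M' P) (lsub2_deg M M' hP) hPu
  rw [lsub2_comp, eval_lsub2] at h1
  exact h1

omit [DecidableEq κ] in
theorem lsub_lsub (h' : M' * M = 1) (g : MvPolynomial σ ℂ) : lsub M (lsub M' g) = g := by
  classical
  induction g using MvPolynomial.induction_on with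
  | C a => rw [← MvPolynomial.algebraMap_eq, AlgHom.commutes, AlgHom.commutes]
  | add p q hp hq => simp only [map_add, hp, hq]
  | mul_X p j hp =>
    rw [map_mul, map_mul, hp]
    congr 1
    rw [lsub_X, map_sum]
    have h1 : ∀ l : κ, lsub M (C (M' j l) * X l) = ∑ k, C (M' j l * M l k) * X k := by
      intro l
      rw [map_mul, lsub_X, ← MvPolynomial.algebraMap_eq, AlgHom.commutes,
        MvPolynomial.algebraMap_eq, Finset.mul_sum]
      refine Finset.sum_congr rfl fun k _ => ?_
      rw [map_mul, mul_assoc]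
    simp only [h1]
    rw [Finset.sum_comm]
    have h2 : ∀ k : σ, ∑ l : κ, (C (M' j l * M l k) * X k : MvPolynomial σ ℂ) =
        if j = k then X k else 0 := by
      intro k
      rw [← Finset.sum_mul, ← map_sum, ← Matrix.mul_apply, h', Matrix.one_apply]
      split_ifs <;> simp
    simp only [h2, Finset.sum_ite_eq, Finset.mem_univ, if_true]

theorem WMod.lin_lin (h' : M' * M = 1) : (W.lin M M' h).lin M' M h' = W := by
  have hx : ((W.lin M M' h).lin M' M h').x = W.x := by
    apply AlgHom.ext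
    intro g
    rw [WMod.lin_x, WMod.lin_x, lsub_lsub M M' h']
  have hd : ((W.lin M M' h).lin M' M h').d = W.d := by
    apply AlgHom.ext
    intro g
    have h1 : M.transpose * M'.transpose = 1 := by
      rw [← Matrix.transpose_mul, h', Matrix.transpose_one]
    rw [WMod.lin_d, WMod.lin_d, lsub_lsub M'.transpose M.transpose h1]
  cases W
  simp only [WMod.lin, WMod.mk.injEq] at hx hd ⊢
  exact ⟨hx, hd⟩

theorem WMod.inCh_lin (h' : M' * M = 1) {x ξ : σ → ℂ} :
    (W.lin M M' h).InCh (M.mulVec x) (M'.transpose.mulVec ξ) ↔ W.InCh x ξ := by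
  refine ⟨fun hc => ?_, fun hc => WMod.InCh.lin W M M' h hc⟩
  have h1 := WMod.InCh.lin (W.lin M M' h) M' M h' hc
  rw [WMod.lin_lin, Matrix.mulVec_mulVec, Matrix.mulVec_mulVec, h', Matrix.one_mulVec,
    ← Matrix.transpose_mul, h', Matrix.transpose_one, Matrix.one_mulVec] at h1
  exact h1

theorem WMod.Stable.lin {W : WMod σ L} {N : Submodule ℂ L} (hN : W.Stable N) :
    (W.lin M M' h).Stable N := by
  intro u hu
  refine ⟨fun k => ?_, fun k => ?_⟩
  · rw [W.lin_xX, LinearMap.sum_apply]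
    exact N.sum_mem fun l _ => N.smul_mem _ ((hN u hu).1 l)
  · rw [W.lin_dX, LinearMap.sum_apply]
    exact N.sum_mem fun l _ => N.smul_mem _ ((hN u hu).2 l)

theorem WMod.stable_lin (h' : M' * M = 1) (N : Submodule ℂ L) :
    (W.lin M M' h).Stable N ↔ W.Stable N := by
  refine ⟨fun hN => ?_, fun hN => hN.lin M M' h⟩
  have h1 := hN.lin M' M h'
  rwa [WMod.lin_lin] at h1

theorem WMod.simple_lin (h' : M' * M = 1) : (W.lin M M' h).Simple ↔ W.Simple := by
  unfold WMod.Simple WMod.SimpleSub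
  simp only [W.stable_lin M M' h h']

theorem card_eq_of_inv {σ κ : Type} [Fintype σ] [DecidableEq σ] [Fintype κ] [DecidableEq κ]
    (M : Matrix κ σ ℂ) (M' : Matrix σ κ ℂ) (h : M * M' = 1)
    (h' : M' * M = 1) : Fintype.card κ = Fintype.card σ := by
  have h1 := congrArg Matrix.trace h
  have h2 := congrArg Matrix.trace h'
  rw [Matrix.trace_mul_comm, h2, Matrix.trace_one, Matrix.trace_one] at h1
  exact_mod_cast h1.symm

theorem WMod.Growth.lin {W : WMod σ L} (h' : M' * M = 1) (hG : W.Growth) :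
    (W.lin M M' h).Growth := by
  obtain ⟨G, c, hG⟩ := hG
  refine ⟨G, c, hG.mono, hG.fin, fun k i u hu => ?_, fun k i u hu => ?_, hG.exh, fun k => ?_⟩
  · rw [W.lin_xX, LinearMap.sum_apply]
    exact Submodule.sum_mem _ fun l _ => Submodule.smul_mem _ _ (hG.hx k l u hu)
  · rw [W.lin_dX, LinearMap.sum_apply]
    exact Submodule.sum_mem _ fun l _ => Submodule.smul_mem _ _ (hG.hd k l u hu)
  · rw [card_eq_of_inv M M' h h']
    exact hG.bound k

theorem WMod.growth_lin (h' : M' * M = 1) : (W.lin M M' h).Growth ↔ W.Growth := by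
  refine ⟨fun hG => ?_, fun hG => hG.lin M M' h h'⟩
  have h1 := hG.lin M' M h' h
  rwa [WMod.lin_lin] at h1

theorem WMod.SuppEq.lin {W : WMod σ L} (h' : M' * M = 1) {Z : Set (σ → ℂ)} (hS : W.SuppEq Z) :
    (W.lin M M' h).SuppEq {y | M'.mulVec y ∈ Z} := by
  intro g
  rw [W.lin_x, ← hS]
  refine ⟨fun hg x hx => ?_, fun hg y hy => ?_⟩
  · rw [eval_lsub]
    refine hg _ ?_
    rw [Set.mem_ofPred_eq, Matrix.mulVec_mulVec, h', Matrix.one_mulVec]
    exact hx
  · have h1 := hg _ hy
    rwa [eval_lsub, Matrix.mulVec_mulVec, h, Matrix.one_mulVec] at h1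

theorem WMod.suppEq_lin (h' : M' * M = 1) (Z : Set (σ → ℂ)) :
    (W.lin M M' h).SuppEq {y | M'.mulVec y ∈ Z} ↔ W.SuppEq Z := by
  refine ⟨fun hS => ?_, fun hS => hS.lin M M' h h'⟩
  have h1 := hS.lin M' M h' h
  rw [WMod.lin_lin] at h1
  have h2 : {y : σ → ℂ | M.mulVec y ∈ {y | M'.mulVec y ∈ Z}} = Z := by
    ext y
    rw [Set.mem_ofPred_eq, Set.mem_ofPred_eq, Matrix.mulVec_mulVec, h', Matrix.one_mulVec]
  rwa [h2] at h1

end Pool.DM
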